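import Mathlib
import Pool.Agent.Sep.FinalIndex

/-!
# Reconstruction of truncated clique lattices of graphs with a degree-separated separator

Let `G` be a finite graph, let `K` be `G` or its complement and let `A` be a set of vertices such
that the degrees in `K` of the vertices of `A` differ by at least two from the degrees of the other
vertices (`A` may be empty, and it may be large). Let `a` be the number of automorphisms of `K[A]`
and `r` the number of those that extend to automorphisms of `K`, and let `q` be a natural number
with `2 ^ (q + 1) a < 3 ^ q r`. If `K - A` has at least three vertices, more than `q (q - 1) / 2`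
components and, unless `a = 1`, at least three components, then the truncated clique lattice `T(G)`
is reconstructible from its deck of maximal filter deleted subsets.
-/

set_option autoImplicit false

namespace Pool.Agent.Results.MP_552896_co.Separator

theorem result (V : Type) [Fintype V] (G K : SimpleGraph V)
    -- `K` is `G` or its complement
    (hK : K = G ∨ K = Gᶜ) (A : Set V) (q : ℕ)
    -- the degrees of the vertices of `A` differ by at least two from all other degrees
    (hgap : ∀ u ∈ A, ∀ v ∉ A, (K.neighborSet u).ncard + 2 ≤ (K.neighborSet v).ncard ∨
      (K.neighborSet v).ncard + 2 ≤ (K.neighborSet u).ncard)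
    -- `q` is larger than the logarithm to the base `3 / 2` of `2 a / r`, where `K[A]` has `a`
    -- automorphisms and `r` of them extend to automorphisms of `K`
    (hq : 2 ^ (q + 1) * Nat.card (K.induce A ≃g K.induce A) <
      3 ^ q * Nat.card {φ : K.induce A ≃g K.induce A //
        ∃ α : K ≃g K, ∀ a : A, ((φ a : A) : V) = α a})
    -- `K - A` has at least three vertices and more than `q (q - 1) / 2` components
    (hA : 3 ≤ Aᶜ.ncard)
    (hcomp : q * (q - 1) < 2 * Nat.card (K.induce Aᶜ).ConnectedComponent)
    -- and it has at least three components, unless `K[A]` is asymmetric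
    (hthree : 3 ≤ Nat.card (K.induce Aᶜ).ConnectedComponent ∨
      Nat.card (K.induce A ≃g K.induce A) = 1) :
    -- every truncated clique lattice with the same deck as `T(G)` is isomorphic to `T(G)`
    ∀ (W : Type) [Fintype W] (H : SimpleGraph W) (f : V ≃ W),
      (∀ v : V,
        Nonempty ({s : Finset V // s.Nonempty ∧ G.IsClique (s : Set V) ∧ v ∉ s} ≃o
          {t : Finset W // t.Nonempty ∧ H.IsClique (t : Set W) ∧ f v ∉ t})) →
      Nonempty ({s : Finset V // s.Nonempty ∧ G.IsClique (s : Set V)} ≃o
        {t : Finset W // t.Nonempty ∧ H.IsClique (t : Set W)}) :=
  fun _ _ H f hdeck => Pool.Agent.Sep.clique_of_graph G K hK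
    (fun H' f' hd => Pool.Agent.Sep.recon_gap_index K H' f' hd A q hgap hq hA hcomp hthree)
    H f hdeck

end Pool.Agent.Results.MP_552896_co.Separator
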